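import Pool.Agent.Helper82.BR.St3

/-!
# Project BR8, module R2A
-/

set_option autoImplicit false

namespace Pool.Agent.Helper53.BR

open Pool.Agent.Helper82.BR
open scoped ComplexConjugate

private lemma unit_cc {p : ℂ} (hp : ‖p‖ = 1) : p * conj p = 1 := by
  rw [Complex.mul_conj, Complex.normSq_eq_norm_sq, hp]
  norm_num

private lemma bis {s p : ℂ} (hp : ‖p‖ = 1) (h : dist s 0 = dist s p) :
    s * conj p + conj s * p = 1 := by
  have h1 : ‖s‖ = ‖s - p‖ := by
    rw [dist_eq_norm, dist_eq_norm, sub_zero] at h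
    exact h
  have h2 : s * conj s = (s - p) * conj (s - p) := by
    rw [Complex.mul_conj, Complex.mul_conj, Complex.normSq_eq_norm_sq, Complex.normSq_eq_norm_sq, h1]
  have h3 := unit_cc hp
  rw [map_sub] at h2
  linear_combination h2 + h3

private lemma sq_unit {s p : ℂ} (hs : ‖s‖ = 1) (hp : ‖p‖ = 1) (E : s * conj p + conj s * p = 1) :
    s ^ 2 + p ^ 2 = s * p := by
  linear_combination (s * p) * E - s ^ 2 * unit_cc hp - p ^ 2 * unit_cc hs

private lemma dir {b d p : ℂ} (hb : b = d * conj b) (hp : ‖p‖ = 1)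
    (E : b * conj p + conj b * p = 1) : b * (d + p ^ 2) = d * p := by
  linear_combination (d * p) * E - d * b * unit_cc hp + p ^ 2 * hb

private lemma key {S : Finset ℂ} {ρ b1 b2 b3 p u : ℂ} (hn : ‖ρ‖ = 1) (hR : Rich S)
    (hb1 : b1 = ρ * conj b1) (hb2 : b2 = ρ ^ 3 * conj b2) (hb3 : b3 = ρ ^ 5 * conj b3)
    (hS : ∀ z, z ∈ S ↔ z = 0 ∨ z = 1 ∨ z = ρ ∨ z = ρ ^ 2 ∨ z = ρ ^ 3 ∨ z = b1 ∨ z = b2 ∨ z = b3)
    (hp : p ∈ S) (hp1 : ‖p‖ = 1)
    (hk : ∀ k : ℕ, k ≤ 3 → ρ ^ k ≠ u → (ρ ^ k) ^ 2 + p ^ 2 ≠ ρ ^ k * p) :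
    b1 * (ρ + p ^ 2) = ρ * p ∨ b2 * (ρ ^ 3 + p ^ 2) = ρ ^ 3 * p ∨
      b3 * (ρ ^ 5 + p ^ 2) = ρ ^ 5 * p := by
  by_contra h
  rw [not_or, not_or] at h
  obtain ⟨n1, n2, n3⟩ := h
  have hu : ∀ k : ℕ, ‖ρ ^ k‖ = 1 := fun k => by rw [norm_pow, hn, one_pow]
  have h0 : (0 : ℂ) ∈ S := (hS 0).2 (Or.inl rfl)
  have hp0 : (0 : ℂ) ≠ p := by
    intro h
    rw [← h, norm_zero] at hp1
    exact zero_ne_one hp1
  have hF := hR 0 h0 p hp hp0
  have hsub : S.filter (fun s => dist s 0 = dist s p) ⊆ {u} := by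
    intro s hs
    rw [Finset.mem_filter] at hs
    obtain ⟨hsS, hd⟩ := hs
    have E := bis hp1 hd
    rw [Finset.mem_singleton]
    by_contra hne
    have hpow : ∀ k : ℕ, k ≤ 3 → s = ρ ^ k → False := by
      intro k hk3 hs
      refine hk k hk3 (fun h => hne (hs.trans h)) ?_
      rw [hs] at E
      exact sq_unit (hu k) hp1 E
    rcases (hS s).1 hsS with h | h | h | h | h | h | h | h
    · rw [h] at E
      simp at E
    · exact hpow 0 (by norm_num) (by rw [h, pow_zero])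
    · exact hpow 1 (by norm_num) (by rw [h, pow_one])
    · exact hpow 2 (by norm_num) h
    · exact hpow 3 (by norm_num) h
    · rw [h] at E
      exact n1 (dir hb1 hp1 E)
    · rw [h] at E
      exact n2 (dir hb2 hp1 E)
    · rw [h] at E
      exact n3 (dir hb3 hp1 E)
  have h2 := Finset.card_le_card hsub
  rw [Finset.card_singleton] at h2
  omega

theorem hR2A : StR2A := by
  intro S w ρ b1 b2 b3 hC hρw
  obtain ⟨hw, hn, hR, hz1, hz2, hz3, hb1, hb2, hb3, hS⟩ := hC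
  have h4 : ρ ^ 4 = ρ ^ 2 - 1 := by
    rw [← hρw] at hw
    linear_combination hw
  have h6 : ρ ^ 6 = -1 := by linear_combination (ρ ^ 2 + 1) * h4
  have hρ : ρ ≠ 0 := by
    intro h
    rw [h, norm_zero] at hn
    exact zero_ne_one hn
  have m1 : ρ ^ 2 + 1 - ρ ≠ 0 := by
    intro h
    have h1 : (2 : ℂ) = 0 := by linear_combination h6 - (ρ + 1) * (ρ ^ 3 - 1) * h
    norm_num at h1
  have m3 : ρ ^ 6 + 1 - ρ ^ 3 ≠ 0 := by
    intro h
    have h1 : ρ ^ 3 = 0 := by linear_combination h6 - h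
    exact pow_ne_zero 3 hρ h1
  have q1 : ρ - 1 ≠ 0 := by
    intro h
    have h1 : (1 : ℂ) = 0 := by linear_combination h4 - (ρ ^ 3 + ρ ^ 2) * h
    norm_num at h1
  have q2 : ρ + 1 ≠ 0 := by
    intro h
    have h1 : (1 : ℂ) = 0 := by linear_combination h4 - (ρ ^ 3 - ρ ^ 2) * h
    norm_num at h1
  have q3 : ρ ^ 3 - 1 ≠ 0 := by
    intro h
    have h1 : (2 : ℂ) = 0 := by linear_combination h6 - (ρ ^ 3 + 1) * h
    norm_num at h1
  have q4 : ρ ^ 4 - 1 ≠ 0 := by
    intro h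
    have h1 : (3 : ℂ) = 0 := by
      linear_combination h - (ρ ^ 2 + 2) * (h - h4)
    norm_num at h1
  have e1 : 1 + ρ ^ 3 - ρ * (1 + ρ) ≠ 0 := by
    intro h
    exact mul_ne_zero (mul_ne_zero q1 q1) q2 (by linear_combination h)
  have e2 : 1 + ρ ^ 5 - ρ ^ 2 * (1 + ρ) ≠ 0 := by
    intro h
    exact mul_ne_zero (mul_ne_zero q1 q2) q3 (by linear_combination h)
  have e3 : 1 + ρ ^ 5 - ρ * (1 + ρ ^ 3) ≠ 0 := by
    intro h
    exact mul_ne_zero q1 q4 (by linear_combination h)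
  have hu : ∀ k : ℕ, ‖ρ ^ k‖ = 1 := fun k => by rw [norm_pow, hn, one_pow]
  have k1 := key (p := 1) (u := ρ ^ 2) hn hR hb1 hb2 hb3 hS ((hS 1).2 (by simp)) norm_one (by
    intro k hk hne h
    interval_cases k
    · norm_num at h
    · exact m1 (by linear_combination h)
    · exact hne rfl
    · exact m3 (by linear_combination h))
  have k2 := key (p := ρ) (u := ρ ^ 3) hn hR hb1 hb2 hb3 hS ((hS ρ).2 (by simp)) hn (by
    intro k hk hne h
    interval_cases k
    · exact m1 (by linear_combination h)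
    · exact pow_ne_zero 2 hρ (by linear_combination h)
    · exact mul_ne_zero (pow_ne_zero 2 hρ) m1 (by linear_combination h)
    · exact hne rfl)
  have k3 := key (p := ρ ^ 2) (u := 1) hn hR hb1 hb2 hb3 hS ((hS (ρ ^ 2)).2 (by simp)) (hu 2) (by
    intro k hk hne h
    interval_cases k
    · exact hne (pow_zero _)
    · exact mul_ne_zero (pow_ne_zero 2 hρ) m1 (by linear_combination h)
    · exact pow_ne_zero 4 hρ (by linear_combination h)
    · exact mul_ne_zero (pow_ne_zero 4 hρ) m1 (by linear_combination h))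
  have k4 := key (p := ρ ^ 3) (u := ρ) hn hR hb1 hb2 hb3 hS ((hS (ρ ^ 3)).2 (by simp)) (hu 3) (by
    intro k hk hne h
    interval_cases k
    · exact m3 (by linear_combination h)
    · exact hne (pow_one _)
    · exact mul_ne_zero (pow_ne_zero 4 hρ) m1 (by linear_combination h)
    · exact pow_ne_zero 6 hρ (by linear_combination h))
  -- the formulas
  have K1 : b1 * (1 + ρ) = ρ ∨ b2 * (1 + ρ ^ 3) = ρ ^ 3 ∨ b3 * (1 + ρ ^ 5) = ρ ^ 5 := by
    rcases k1 with h | h | h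
    · exact Or.inl (by linear_combination h)
    · exact Or.inr (Or.inl (by linear_combination h))
    · exact Or.inr (Or.inr (by linear_combination h))
  have K2 : b1 * (1 + ρ) = ρ ∨ b2 * (1 + ρ) = ρ ^ 2 ∨ b3 * (1 + ρ ^ 3) = ρ ^ 4 := by
    rcases k2 with h | h | h
    · exact Or.inl (mul_left_cancel₀ hρ (by linear_combination h))
    · exact Or.inr (Or.inl (mul_left_cancel₀ (pow_ne_zero 2 hρ) (by linear_combination h)))
    · exact Or.inr (Or.inr (mul_left_cancel₀ (pow_ne_zero 2 hρ) (by linear_combination h)))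
  have K3 : b1 * (1 + ρ ^ 3) = ρ ^ 2 ∨ b2 * (1 + ρ) = ρ ^ 2 ∨ b3 * (1 + ρ) = ρ ^ 3 := by
    rcases k3 with h | h | h
    · exact Or.inl (mul_left_cancel₀ hρ (by linear_combination h))
    · exact Or.inr (Or.inl (mul_left_cancel₀ (pow_ne_zero 3 hρ) (by linear_combination h)))
    · exact Or.inr (Or.inr (mul_left_cancel₀ (pow_ne_zero 4 hρ) (by linear_combination h)))
  have K4 : b1 * (1 + ρ ^ 5) = ρ ^ 3 ∨ b2 * (1 + ρ ^ 3) = ρ ^ 3 ∨ b3 * (1 + ρ) = ρ ^ 3 := by
    rcases k4 with h | h | h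
    · exact Or.inl (mul_left_cancel₀ hρ (by linear_combination h))
    · exact Or.inr (Or.inl (mul_left_cancel₀ (pow_ne_zero 3 hρ) (by linear_combination h)))
    · exact Or.inr (Or.inr (mul_left_cancel₀ (pow_ne_zero 5 hρ) (by linear_combination h)))
  -- incompatible formulas
  have x12 : b1 * (1 + ρ) = ρ → b1 * (1 + ρ ^ 3) = ρ ^ 2 → False := fun h h' =>
    mul_ne_zero hz1 e1 (by linear_combination h' - ρ * h)
  have x13 : b1 * (1 + ρ) = ρ → b1 * (1 + ρ ^ 5) = ρ ^ 3 → False := fun h h' =>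
    mul_ne_zero hz1 e2 (by linear_combination h' - ρ ^ 2 * h)
  have y12 : b2 * (1 + ρ) = ρ ^ 2 → b2 * (1 + ρ ^ 3) = ρ ^ 3 → False := fun h h' =>
    mul_ne_zero hz2 e1 (by linear_combination h' - ρ * h)
  have z12 : b3 * (1 + ρ) = ρ ^ 3 → b3 * (1 + ρ ^ 3) = ρ ^ 4 → False := fun h h' =>
    mul_ne_zero hz3 e1 (by linear_combination h' - ρ * h)
  have z13 : b3 * (1 + ρ) = ρ ^ 3 → b3 * (1 + ρ ^ 5) = ρ ^ 5 → False := fun h h' =>
    mul_ne_zero hz3 e2 (by linear_combination h' - ρ ^ 2 * h)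
  have z23 : b3 * (1 + ρ ^ 3) = ρ ^ 4 → b3 * (1 + ρ ^ 5) = ρ ^ 5 → False := fun h h' =>
    mul_ne_zero hz3 e3 (by linear_combination h' - ρ * h)
  by_cases a1 : b1 * (1 + ρ) = ρ
  · refine Or.inl ⟨a1, ?_⟩
    rcases K4 with h | h | h
    · exact (x13 a1 h).elim
    · rcases K3 with h' | h' | h'
      · exact (x12 a1 h').elim
      · exact (y12 h' h).elim
      · exact h'
    · exact h
  · rcases K1 with h | h | h
    · exact (a1 h).elim
    · refine Or.inr (Or.inl ?_)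
      have g : b3 * (1 + ρ ^ 3) = ρ ^ 4 := by
        rcases K2 with h' | h' | h'
        · exact (a1 h').elim
        · exact (y12 h' h).elim
        · exact h'
      refine ⟨?_, h, g⟩
      rcases K3 with h' | h' | h'
      · exact h'
      · exact (y12 h' h).elim
      · exact (z12 h' g).elim
    · refine Or.inr (Or.inr ?_)
      have g : b2 * (1 + ρ) = ρ ^ 2 := by
        rcases K2 with h' | h' | h'
        · exact (a1 h').elim
        · exact h'
        · exact (z23 h' h).elim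
      refine ⟨?_, g, h⟩
      rcases K4 with h' | h' | h'
      · exact h'
      · exact (y12 g h').elim
      · exact (z13 h' h).elim

end Pool.Agent.Helper53.BR
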